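import Pool.Agent.Helper15.RK.GoalsF
import Pool.Agent.Helper4.SP.PARB
import Pool.Agent.Helper3.SP.KET

set_option autoImplicit false

/-! # Basics on local parametrizations and the action, in any dimension `n` -/

open Complex Metric Set Filter Topology MeasureTheory
open scoped ContDiff ComplexConjugate ComplexOrder Manifold Matrix

namespace Pool.Agent.Helper9.RK

open Pool.Agent.Helper95.Lin Pool.Agent.Helper16.Abund Pool.Agent.Helper92.Orb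
  Pool.Agent.Helper10.SP Pool.Agent.Helper95.RK Pool.Agent.Helper15.RK

universe u v

section general

variable {n : ℕ} {G : Type u} {M : Type v} [Group G] [MulAction G M]
  [TopologicalSpace M] [ChartedSpace (Fin n → ℂ) M]
  [IsManifold 𝓘(ℂ, Fin n → ℂ) ω M]

/-- The transition map between two parametrizations, up to the action of `γ`. -/
theorem transN (hΓ : ∀ γ : G, MDifferentiable 𝓘(ℂ, Fin n → ℂ) 𝓘(ℂ, Fin n → ℂ) (fun x : M => γ • x)) {V₁ V₂ : Set (Cn n)} {ψ₁ ψ₂ : Cn n → M}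
    (h₁ : Par n ψ₁ V₁) (h₂ : Par n ψ₂ V₂) {z₁ z₂ : Cn n} (hz₁ : z₁ ∈ V₁)
    (hz₂ : z₂ ∈ V₂) (γ : G) (heq : ψ₂ z₂ = γ • ψ₁ z₁) :
    ∃ (W' : Set (Cn n)) (φ : Cn n → Cn n), IsOpen W' ∧ z₁ ∈ W' ∧ W' ⊆ V₁ ∧
      DifferentiableOn ℂ φ W' ∧ MapsTo φ W' V₂ ∧ φ z₁ = z₂ ∧
      (∀ z ∈ W', (fderiv ℂ φ z).det ≠ 0) ∧ (∀ z ∈ W', ψ₂ (φ z) = γ • ψ₁ z) := by
  obtain ⟨⟨hV₁, hm₁⟩, hj₁⟩ := h₁
  obtain ⟨⟨hV₂, hm₂⟩, hj₂⟩ := h₂
  set χ := chartAt (Fin n → ℂ) (ψ₂ z₂) with hχ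
  have hc₂ : ContinuousOn ψ₂ V₂ := hm₂.continuousOn
  have hU₂ : IsOpen (V₂ ∩ ψ₂ ⁻¹' χ.source) := hc₂.isOpen_inter_preimage hV₂ χ.open_source
  have hmF : ∀ z ∈ V₂ ∩ ψ₂ ⁻¹' χ.source,
      MDifferentiableAt 𝓘(ℂ, Fin n → ℂ) 𝓘(ℂ, Fin n → ℂ) (χ ∘ ψ₂) z := by
    intro z hz
    exact ((mdiff_chart (ψ₂ z₂)).mdifferentiableAt (χ.open_source.mem_nhds hz.2)).comp z
      (hm₂.mdifferentiableAt (hV₂.mem_nhds hz.1))
  have hF : DifferentiableOn ℂ (χ ∘ ψ₂) (V₂ ∩ ψ₂ ⁻¹' χ.source) := fun z hz =>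
    (mdifferentiableAt_iff_differentiableAt.1 (hmF z hz)).differentiableWithinAt
  have hdet : ∀ z ∈ V₂ ∩ ψ₂ ⁻¹' χ.source, (fderiv ℂ (χ ∘ ψ₂) z).det ≠ 0 := by
    intro z hz
    rw [← jac_eq_fderiv, jac_comp ((mdiff_chart (ψ₂ z₂)).mdifferentiableAt
      (χ.open_source.mem_nhds hz.2)) (hm₂.mdifferentiableAt (hV₂.mem_nhds hz.1))]
    refine mul_ne_zero ?_ (hj₂ z hz.1)
    have hs : MDifferentiableAt 𝓘(ℂ, Fin n → ℂ) 𝓘(ℂ, Fin n → ℂ) χ.symm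
        (χ (ψ₂ z)) :=
      (mdiff_chart_symm (ψ₂ z₂)).mdifferentiableAt (χ.open_target.mem_nhds (χ.map_source hz.2))
    have h1 : MDifferentiableAt 𝓘(ℂ, Fin n → ℂ) 𝓘(ℂ, Fin n → ℂ) χ (ψ₂ z) :=
      (mdiff_chart (ψ₂ z₂)).mdifferentiableAt (χ.open_source.mem_nhds hz.2)
    have := jac_mul_eq_one hs h1 (by
      filter_upwards [χ.open_source.mem_nhds hz.2] with w hw
      exact χ.left_inv hw)
    intro h0
    rw [h0, mul_zero] at this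
    exact zero_ne_one this
  have hz₂U : z₂ ∈ V₂ ∩ ψ₂ ⁻¹' χ.source := ⟨hz₂, mem_chart_source _ _⟩
  obtain ⟨e, hze, heU, hee, hes⟩ := Pool.Agent.Helper64.SP.exists_inv hU₂ hF hz₂U hdet
  have hmg : ∀ z ∈ V₁, MDifferentiableAt 𝓘(ℂ, Fin n → ℂ) 𝓘(ℂ, Fin n → ℂ)
      (fun w => γ • ψ₁ w) z := fun z hz =>
    (hΓ γ (ψ₁ z)).comp z (hm₁.mdifferentiableAt (hV₁.mem_nhds hz))
  have hcg : ContinuousOn (fun w => γ • ψ₁ w) V₁ := fun z hz =>
    (hmg z hz).continuousAt.continuousWithinAt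
  have hO₁ : IsOpen (V₁ ∩ (fun w => γ • ψ₁ w) ⁻¹' χ.source) :=
    hcg.isOpen_inter_preimage hV₁ χ.open_source
  have hmχ : ∀ z ∈ V₁ ∩ (fun w => γ • ψ₁ w) ⁻¹' χ.source,
      MDifferentiableAt 𝓘(ℂ, Fin n → ℂ) 𝓘(ℂ, Fin n → ℂ)
      (fun w => χ (γ • ψ₁ w)) z := fun z hz =>
    ((mdiff_chart (ψ₂ z₂)).mdifferentiableAt (χ.open_source.mem_nhds hz.2)).comp z
      (hmg z hz.1)
  have hcχ : ContinuousOn (fun w => χ (γ • ψ₁ w)) (V₁ ∩ (fun w => γ • ψ₁ w) ⁻¹' χ.source) :=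
    fun z hz => (hmχ z hz).continuousAt.continuousWithinAt
  have hW' : IsOpen ((V₁ ∩ (fun w => γ • ψ₁ w) ⁻¹' χ.source) ∩
      (fun w => χ (γ • ψ₁ w)) ⁻¹' e.target) := hcχ.isOpen_inter_preimage hO₁ e.open_target
  have hφd : DifferentiableOn ℂ (fun w => e.symm (χ (γ • ψ₁ w)))
      ((V₁ ∩ (fun w => γ • ψ₁ w) ⁻¹' χ.source) ∩ (fun w => χ (γ • ψ₁ w)) ⁻¹' e.target) := by
    refine hes.comp (fun z hz => ?_) (fun z hz => hz.2)
    exact (mdifferentiableAt_iff_differentiableAt.1 (hmχ z hz.1)).differentiableWithinAt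
  have hφψ : ∀ z ∈ (V₁ ∩ (fun w => γ • ψ₁ w) ⁻¹' χ.source) ∩
      (fun w => χ (γ • ψ₁ w)) ⁻¹' e.target, e.symm (χ (γ • ψ₁ z)) ∈ V₂ ∧
      ψ₂ (e.symm (χ (γ • ψ₁ z))) = γ • ψ₁ z := by
    intro z hz
    have hs := e.map_target hz.2
    have hU := heU hs
    refine ⟨hU.1, ?_⟩
    have h3 : χ (ψ₂ (e.symm (χ (γ • ψ₁ z)))) = χ (γ • ψ₁ z) := by
      have h4 := e.right_inv hz.2
      rw [hee] at h4
      exact h4
    exact χ.injOn hU.2 hz.1.2 h3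
  have hz₁W : z₁ ∈ (V₁ ∩ (fun w => γ • ψ₁ w) ⁻¹' χ.source) ∩
      (fun w => χ (γ • ψ₁ w)) ⁻¹' e.target := by
    refine ⟨⟨hz₁, ?_⟩, ?_⟩
    · change γ • ψ₁ z₁ ∈ χ.source
      rw [← heq]
      exact mem_chart_source _ _
    · change χ (γ • ψ₁ z₁) ∈ e.target
      rw [← heq]
      have := e.map_source hze
      rw [hee] at this
      exact this
  have hφz : e.symm (χ (γ • ψ₁ z₁)) = z₂ := by
    rw [← heq]
    have := e.left_inv hze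
    rw [hee] at this
    exact this
  have hjac : ∀ z ∈ (V₁ ∩ (fun w => γ • ψ₁ w) ⁻¹' χ.source) ∩
      (fun w => χ (γ • ψ₁ w)) ⁻¹' e.target,
      jac n ψ₂ (e.symm (χ (γ • ψ₁ z))) *
        (fderiv ℂ (fun w => e.symm (χ (γ • ψ₁ w))) z).det =
      jac n (fun y : M => γ • y) (ψ₁ z) * jac n ψ₁ z := by
    intro z hz
    have hd : MDifferentiableAt 𝓘(ℂ, Fin n → ℂ) 𝓘(ℂ, Fin n → ℂ)
        (fun w => e.symm (χ (γ • ψ₁ w))) z :=
      mdifferentiableAt_iff_differentiableAt.2 (hφd.differentiableAt (hW'.mem_nhds hz))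
    rw [← jac_eq_fderiv, ← jac_comp (g := ψ₂) (f := fun w => e.symm (χ (γ • ψ₁ w)))
      (hm₂.mdifferentiableAt (hV₂.mem_nhds (hφψ z hz).1)) hd,
      ← jac_comp (g := fun y : M => γ • y) (f := ψ₁) (hΓ γ (ψ₁ z))
      (hm₁.mdifferentiableAt (hV₁.mem_nhds hz.1.1))]
    apply jac_congr
    filter_upwards [hW'.mem_nhds hz] with w hw
    exact (hφψ w hw).2
  have hγ : ∀ x : M, jac n (fun y : M => γ • y) x ≠ 0 :=
    fun x => jac_smul_ne_zero hΓ γ x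
  have hdφ : ∀ z ∈ (V₁ ∩ (fun w => γ • ψ₁ w) ⁻¹' χ.source) ∩
      (fun w => χ (γ • ψ₁ w)) ⁻¹' e.target,
      (fderiv ℂ (fun w => e.symm (χ (γ • ψ₁ w))) z).det ≠ 0 := by
    intro z hz h0
    have := hjac z hz
    rw [h0, mul_zero] at this
    exact mul_ne_zero (hγ _) (hj₁ z hz.1.1) this.symm
  refine ⟨_, fun w => e.symm (χ (γ • ψ₁ w)), hW', hz₁W, fun z hz => hz.1.1, hφd,
    fun z hz => (hφψ z hz).1, hφz, hdφ, fun z hz => (hφψ z hz).2⟩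


/-- Arrows between two parametrizations. -/
theorem arrN (hΓ : ∀ γ : G, MDifferentiable 𝓘(ℂ, Fin n → ℂ) 𝓘(ℂ, Fin n → ℂ) (fun x : M => γ • x))
    {V V' : Set (Cn n)} {ψ ψ' : Cn n → M} (hψ : Par n ψ V) (hψ' : Par n ψ' V') (γ : G) {x : Cn n}
    (hx : x ∈ V) {x' : Cn n} (hx' : x' ∈ V') (hxx : γ • ψ x = ψ' x') :
    ∃ (τ : Cn n → Cn n) (U W : Set (Cn n)), IsOpen U ∧ IsOpen W ∧ x ∈ U ∧
      x' ∈ W ∧ U ⊆ V ∧ W ⊆ V' ∧ DifferentiableOn ℂ τ U ∧ InjOn τ U ∧ MapsTo τ U W ∧ τ x = x' ∧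
      (∀ y ∈ U, (fderiv ℂ τ y).det ≠ 0) ∧ ∀ y ∈ U, ∀ y' ∈ W, γ • ψ y = ψ' y' ↔ y' = τ y := by
  obtain ⟨W₁, φ, hW₁, hxW₁, hW₁V, hφ, hφV, hφx, hdet, heq⟩ :=
    transN hΓ hψ hψ' hx hx' γ hxx.symm
  obtain ⟨W, hWV, hWo, hxW, hWi⟩ := Pool.Agent.Helper4.SP.par_injOn hψ' hx'
  obtain ⟨U₁, hU₁W, hU₁o, hxU₁, hU₁i⟩ :=
    Pool.Agent.Helper4.SP.par_injOn (Pool.Agent.Helper4.SP.par_mono hψ hW₁ hW₁V) hxW₁
  have hUo : IsOpen (U₁ ∩ φ ⁻¹' W) :=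
    (hφ.continuousOn.mono hU₁W).isOpen_inter_preimage hU₁o hWo
  refine ⟨φ, U₁ ∩ φ ⁻¹' W, W, hUo, hWo, ⟨hxU₁, ?_⟩, hxW, fun y hy => hW₁V (hU₁W hy.1), hWV,
    hφ.mono fun y hy => hU₁W hy.1, ?_, fun y hy => hy.2, hφx,
    fun y hy => hdet y (hU₁W hy.1), ?_⟩
  · show φ x ∈ W
    rw [hφx]
    exact hxW
  · intro y hy y' hy' hyy
    refine hU₁i hy.1 hy'.1 ?_
    have h1 := heq y (hU₁W hy.1)
    have h2 := heq y' (hU₁W hy'.1)
    rw [hyy] at h1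
    exact MulAction.injective γ (h1.symm.trans h2)
  · intro y hy y' hy'
    constructor
    · intro h1
      rw [← heq y (hU₁W hy.1)] at h1
      exact (hWi hy.2 hy' h1).symm
    · rintro rfl
      exact (heq y (hU₁W hy.1)).symm

/-- Translates of parametrizations. -/
theorem par_smul (hΓ : ∀ γ : G, MDifferentiable 𝓘(ℂ, Fin n → ℂ) 𝓘(ℂ, Fin n → ℂ)
    (fun x : M => γ • x)) (γ : G) {V : Set (Cn n)} {ψ : Cn n → M} (hψ : Par n ψ V) :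
    Par n (fun x => γ • ψ x) V ∧ ∀ x ∈ V, jac n (fun y => γ • ψ y) x =
      jac n (fun y : M => γ • y) (ψ x) * jac n ψ x := by
  have hm : ∀ x ∈ V, MDifferentiableAt 𝓘(ℂ, Fin n → ℂ) 𝓘(ℂ, Fin n → ℂ) ψ x :=
    fun x hx => hψ.1.2.mdifferentiableAt (hψ.1.1.mem_nhds hx)
  have hj : ∀ x ∈ V, jac n (fun y => γ • ψ y) x =
      jac n (fun y : M => γ • y) (ψ x) * jac n ψ x := fun x hx =>
    jac_comp (g := fun y : M => γ • y) (f := ψ) (hΓ γ (ψ x)) (hm x hx)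
  refine ⟨⟨⟨hψ.1.1, fun x hx => ((hΓ γ (ψ x)).comp x (hm x hx)).mdifferentiableWithinAt⟩,
    fun x hx => ?_⟩, hj⟩
  rw [hj x hx]
  exact mul_ne_zero (jac_smul_ne_zero hΓ γ _) (hψ.2 x hx)

end general

section comp

variable {n : ℕ} {M : Type v} [TopologicalSpace M] [ChartedSpace (Fin n → ℂ) M]

/-- Composition of a parametrization with a holomorphic map. -/
theorem par_comp {V V' : Set (Cn n)} {ψ : Cn n → M} {φ : Cn n → Cn n} (hψ : Par n ψ V)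
    (hV' : IsOpen V') (hφ : DifferentiableOn ℂ φ V') (hmaps : MapsTo φ V' V)
    (hdet : ∀ x ∈ V', (fderiv ℂ φ x).det ≠ 0) : Par n (ψ ∘ φ) V' ∧ ∀ x ∈ V',
      jac n (ψ ∘ φ) x = jac n ψ (φ x) * (fderiv ℂ φ x).det := by
  have hm : ∀ x ∈ V', MDifferentiableAt 𝓘(ℂ, Fin n → ℂ) 𝓘(ℂ, Fin n → ℂ) ψ (φ x) :=
    fun x hx => hψ.1.2.mdifferentiableAt (hψ.1.1.mem_nhds (hmaps hx))
  have hmφ : ∀ x ∈ V', MDifferentiableAt 𝓘(ℂ, Fin n → ℂ) 𝓘(ℂ, Fin n → ℂ) φ x :=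
    fun x hx => mdifferentiableAt_iff_differentiableAt.2 (hφ.differentiableAt (hV'.mem_nhds hx))
  have hj : ∀ x ∈ V', jac n (ψ ∘ φ) x = jac n ψ (φ x) * (fderiv ℂ φ x).det := by
    intro x hx
    rw [jac_comp (hm x hx) (hmφ x hx), jac_eq_fderiv]
  refine ⟨⟨⟨hV', fun x hx => ((hm x hx).comp x (hmφ x hx)).mdifferentiableWithinAt⟩,
    fun x hx => ?_⟩, fun x hx => hj x hx⟩
  rw [hj x hx]
  exact mul_ne_zero (hψ.2 _ (hmaps hx)) (hdet x hx)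

/-- A map that is locally equal to parametrizations is a parametrization. -/
theorem par_of_local {T : Set (Cn n)} {E : Cn n → M} (hT : IsOpen T)
    (h : ∀ z ∈ T, ∃ (U : Set (Cn n)) (ψ : Cn n → M), z ∈ U ∧ Par n ψ U ∧ EqOn E ψ U) :
    Par n E T := by
  have key : ∀ z ∈ T, MDifferentiableAt 𝓘(ℂ, Fin n → ℂ) 𝓘(ℂ, Fin n → ℂ) E z ∧ jac n E z ≠ 0 := by
    intro z hz
    obtain ⟨U, ψ, hzU, hψ, heq⟩ := h z hz
    have h1 : E =ᶠ[𝓝 z] ψ := by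
      filter_upwards [hψ.1.1.mem_nhds hzU] with w hw using heq hw
    refine ⟨(hψ.1.2.mdifferentiableAt (hψ.1.1.mem_nhds hzU)).congr_of_eventuallyEq h1, ?_⟩
    rw [jac_congr h1]
    exact hψ.2 z hzU
  exact ⟨⟨hT, fun z hz => (key z hz).1.mdifferentiableWithinAt⟩, fun z hz => (key z hz).2⟩

/-! ### Metrics -/

theorem hermi_single (A : Matrix (Fin n) (Fin n) ℂ) (i j : Fin n) :
    hermi A (Pi.single i 1) (Pi.single j 1) = A i j := by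
  unfold hermi
  rw [Finset.sum_eq_single i, Finset.sum_eq_single j]
  · simp
  · intro l _ hl
    simp [Pi.single_eq_of_ne hl]
  · intro h; exact absurd (Finset.mem_univ _) h
  · intro l _ hl
    refine Finset.sum_eq_zero fun m _ => ?_
    simp [Pi.single_eq_of_ne hl]
  · intro h; exact absurd (Finset.mem_univ _) h

theorem pm_eq_pull (q : M → Matrix (Fin n) (Fin n) ℂ) (ψ : Cn n → M) :
    pm n q ψ = Pool.Agent.Helper3.SP.pull q ψ := by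
  funext x
  ext i j
  rw [← hermi_single (Pool.Agent.Helper3.SP.pull q ψ x), Pool.Agent.Helper3.SP.hermi_pull]
  rfl

/-- The matrix `pm` represents the pull back. -/
theorem hermi_pm (q : M → Matrix (Fin n) (Fin n) ℂ) (ψ : Cn n → M) (x u w : Cn n) :
    hermi (pm n q ψ x) u w = herm (q (ψ x)) (dvec n ψ x u) (dvec n ψ x w) := by
  rw [pm_eq_pull, Pool.Agent.Helper3.SP.hermi_pull]

theorem pm_posDef {q : M → Matrix (Fin n) (Fin n) ℂ} (hq : ∀ x, (q x).PosDef) {ψ : Cn n → M}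
    {x : Cn n} (hx : jac n ψ x ≠ 0) : (pm n q ψ x).PosDef := by
  rw [pm_eq_pull]
  refine Pool.Agent.Helper3.SP.posDef_pull (hq _) ?_
  rw [Pool.Agent.Helper3.SP.dmat_det]
  exact hx

/-- The matrix of the pull back is smooth. -/
theorem pm_smooth {q : M → Matrix (Fin n) (Fin n) ℂ} {ψ : Cn n → M} {V : Set (Cn n)}
    (hs : SmoothForm n (metricForm n q ψ) V) (i j : Fin n) :
    ContDiffOn ℝ ∞ (fun x => pm n q ψ x i j) V := by
  have e : (fun x => pm n q ψ x i j) = fun x =>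
      ((metricForm n q ψ x (Pi.single i I) (Pi.single j 1) : ℝ) : ℂ) +
        ((metricForm n q ψ x (Pi.single i 1) (Pi.single j 1) : ℝ) : ℂ) * I := by
    funext x
    have h1 : ∀ a c : ℂ, metricForm n q ψ x (Pi.single i a) (Pi.single j c) =
        (pm n q ψ x i j * a * conj c).im := by
      intro a c
      unfold metricForm
      rw [← hermi_pm]
      congr 1
      unfold hermi
      rw [Finset.sum_eq_single i, Finset.sum_eq_single j]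
      · simp
      · intro l _ hl
        simp [Pi.single_eq_of_ne hl]
      · intro h; exact absurd (Finset.mem_univ _) h
      · intro l _ hl
        refine Finset.sum_eq_zero fun m _ => ?_
        simp [Pi.single_eq_of_ne hl]
      · intro h; exact absurd (Finset.mem_univ _) h
    rw [h1, h1]
    apply Complex.ext
    · simp
    · simp
  rw [e]
  have h1 := ofRealCLM.contDiff.comp_contDiffOn (hs (Pi.single i I) (Pi.single j 1))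
  have h2 := ofRealCLM.contDiff.comp_contDiffOn (hs (Pi.single i 1) (Pi.single j 1))
  exact h1.add (h2.mul contDiffOn_const)

end comp

end Pool.Agent.Helper9.RK
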