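import Pool.Agent.Helper9.RK.ParK

set_option autoImplicit false

/-! # RK-A MTK: an étale relation for `M` which contains a given parametrization -/

open Complex Metric Set Filter Topology MeasureTheory
open scoped ContDiff ComplexConjugate ComplexOrder Manifold Matrix

namespace Pool.Agent.Helper9.RK

open Pool.Agent.Helper95.Lin Pool.Agent.Helper16.Abund Pool.Agent.Helper92.Orb
  Pool.Agent.Helper10.SP Pool.Agent.Helper95.RK Pool.Agent.Helper15.RK

universe u v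

section general

variable {n : ℕ} {G : Type u} {M : Type v} [Group G] [MulAction G M]
  [TopologicalSpace M] [ChartedSpace (Fin n → ℂ) M]
  [IsManifold 𝓘(ℂ, Fin n → ℂ) ω M]

/-- Arrows of the relation of a parametrization. -/
theorem arr_rel (hΓ : ∀ γ : G, MDifferentiable 𝓘(ℂ, Fin n → ℂ) 𝓘(ℂ, Fin n → ℂ)
    (fun x : M => γ • x)) {T : Set (Cn n)} {E : Cn n → M} (hE : Par n E T) {U : Set (Cn n)}
    {τ : Cn n → Cn n} (hτ : Arr (RelT (G := G) T E) U τ) : ∃ γ : G, ∀ x ∈ U, x ∈ T ∧ τ x ∈ T ∧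
      γ • E x = E (τ x) ∧
      jac n E (τ x) * (fderiv ℂ τ x).det = jac n (fun y : M => γ • y) (E x) * jac n E x ∧
      ∀ e, dvec n E (τ x) (fderiv ℂ τ x e) = tvec n (fun y : M => γ • y) (E x) (dvec n E x e) := by
  obtain ⟨hU, hτd, γ, hγ⟩ := hτ
  refine ⟨γ, fun x hx => ⟨(hγ x hx).1, (hγ x hx).2.1, (hγ x hx).2.2, ?_⟩⟩
  have hxT := (hγ x hx).1
  have hyT := (hγ x hx).2.1
  have hEx : MDifferentiableAt 𝓘(ℂ, Fin n → ℂ) 𝓘(ℂ, Fin n → ℂ) E x :=
    hE.1.2.mdifferentiableAt (hE.1.1.mem_nhds hxT)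
  have hEy : MDifferentiableAt 𝓘(ℂ, Fin n → ℂ) 𝓘(ℂ, Fin n → ℂ) E (τ x) :=
    hE.1.2.mdifferentiableAt (hE.1.1.mem_nhds hyT)
  have hτx : MDifferentiableAt 𝓘(ℂ, Fin n → ℂ) 𝓘(ℂ, Fin n → ℂ) τ x :=
    mdifferentiableAt_iff_differentiableAt.2 (hτd.differentiableAt (hU.mem_nhds hx))
  have h1 := mfderiv_comp x hEy hτx
  have h2 := mfderiv_comp x (g := fun y : M => γ • y) (f := E) (hΓ γ (E x)) hEx
  have h3 : (E ∘ τ) =ᶠ[𝓝 x] ((fun y : M => γ • y) ∘ E) := by
    filter_upwards [hU.mem_nhds hx] with y hy using (hγ y hy).2.2.symm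
  have h4 := h3.mfderiv_eq (I := 𝓘(ℂ, Fin n → ℂ)) (I' := 𝓘(ℂ, Fin n → ℂ))
  constructor
  · have h5 := jac_comp hEy hτx
    have h6 := jac_comp (g := fun y : M => γ • y) (f := E) (hΓ γ (E x)) hEx
    rw [jac_eq_fderiv] at h5
    rw [← h5, ← h6]
    exact jac_congr h3
  · intro e
    have h6 : (mfderiv 𝓘(ℂ, Fin n → ℂ) 𝓘(ℂ, Fin n → ℂ) (E ∘ τ) x :
        (Fin n → ℂ) →L[ℂ] (Fin n → ℂ)) e =
        dvec n E (τ x) (fderiv ℂ τ x e) := by
      rw [h1, mfderiv_eq_fderiv]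
      rfl
    have h7 : (mfderiv 𝓘(ℂ, Fin n → ℂ) 𝓘(ℂ, Fin n → ℂ)
        ((fun y : M => γ • y) ∘ E) x :
        (Fin n → ℂ) →L[ℂ] (Fin n → ℂ)) e =
        tvec n (fun y : M => γ • y) (E x) (dvec n E x e) := by
      rw [h2]
      rfl
    rw [← h6, ← h7]
    exact congrArg (fun L : Cn n →L[ℂ] Cn n => L e) h4

/-- The étale relation of a parametrization whose translates cover `M`. -/
theorem etN [T2Space M] [ConnectedSpace M] (hact : OrbAction n G M)
    (hprop : ∀ K : Set M, IsCompact K → {γ : G | ∃ y ∈ K, γ • y ∈ K}.Finite) {T : Set (Cn n)}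
    {E : Cn n → M} (hE : Par n E T) (hne : T.Nonempty)
    (hcov : ∃ C ⊆ T, IsCompact C ∧ ∀ p : M, ∃ γ : G, ∃ y ∈ C, γ • p = E y) :
    Et T (RelT (G := G) T E) := by
  have hT : IsOpen T := hE.1.1
  have hEc : ContinuousOn E T := hE.1.2.continuousOn
  obtain ⟨C₀, hC₀T, hC₀, hcov⟩ := hcov
  refine ⟨hT, hne, ?_, ?_, ?_, ?_, ?_, ?_, ?_, ?_, ?_⟩
  · -- mem
    exact fun γ x y hxy => ⟨hxy.1, hxy.2.1⟩
  · -- one
    exact fun x hx => ⟨hx, hx, one_smul _ _⟩
  · -- inv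
    exact fun γ x y hxy => ⟨hxy.2.1, hxy.1, inv_smul_eq_iff.2 hxy.2.2.symm⟩
  · -- mul
    intro γ γ' x y z hxy hyz
    exact ⟨hxy.1, hyz.2.1, by rw [mul_smul, hxy.2.2, hyz.2.2]⟩
  · -- loc
    intro γ x y hxy
    obtain ⟨τ, U, W, hU, hW, hxU, hyW, hUV, hWV, hτ, hinj, hmaps, -, hdet, hiff⟩ :=
      arrN hact.holo hE hE γ hxy.1 hxy.2.1 hxy.2.2
    refine ⟨τ, U, W, hU, hW, hxU, hyW, hUV, hWV, hτ, hinj, hmaps, hdet, fun x' hx' y' hy' => ?_⟩
    rw [← hiff x' hx' y' hy']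
    exact ⟨fun h => h.2.2, fun h => ⟨hUV hx', hWV hy', h⟩⟩
  · -- closed
    intro γ x hx y hy hlim
    refine ⟨hx, hy, ?_⟩
    by_contra hne
    obtain ⟨A, B, hA, hB, hxA, hyB, hAB⟩ := t2_separation hne
    have h1 : ContinuousAt (fun x => γ • E x) x :=
      (hact.holo γ).continuous.continuousAt.comp (hEc.continuousAt (hT.mem_nhds hx))
    have h2 : ContinuousAt E y := hEc.continuousAt (hT.mem_nhds hy)
    obtain ⟨x', hx', y', hy', hR⟩ := hlim _ (h1.preimage_mem_nhds (hA.mem_nhds hxA)) _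
      (h2.preimage_mem_nhds (hB.mem_nhds hyB))
    refine Set.disjoint_left.1 hAB (show γ • E x' ∈ A from hx') ?_
    rw [hR.2.2]
    exact hy'
  · -- fin
    intro C hCT hC
    have hK := hprop (E '' C) (hC.image_of_continuousOn (hEc.mono hCT))
    refine hK.subset ?_
    rintro γ ⟨x, hx, y, hy, hR⟩
    exact ⟨E x, mem_image_of_mem E hx, by rw [hR.2.2]; exact mem_image_of_mem E hy⟩
  · -- coc
    refine ⟨C₀, hC₀T, hC₀, fun x hx => ?_⟩
    obtain ⟨γ, y, hy, hp⟩ := hcov (E x)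
    exact ⟨γ, y, hy, hx, hC₀T hy, hp⟩
  · -- conn
    intro S hST hS hTS hinv
    have hopen : ∀ U ⊆ T, IsOpen U → IsOpen (⋃ γ : G, (fun x => γ • E x) '' U) := by
      intro U hU hUo
      exact isOpen_iUnion fun γ => Pool.Agent.Helper4.SP.par_open
        (Pool.Agent.Helper4.SP.par_mono (par_smul hact.holo γ hE).1 hUo hU)
    have hA := hopen S hST hS
    have hB := hopen (T \ S) sdiff_subset hTS
    have hcompl : (⋃ γ : G, (fun x => γ • E x) '' S)ᶜ =
        ⋃ γ : G, (fun x => γ • E x) '' (T \ S) := by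
      ext p
      constructor
      · intro hp
        obtain ⟨γ, x, hx, hγ⟩ := hcov p
        refine mem_iUnion.2 ⟨γ⁻¹, x, ⟨hC₀T hx, fun hxS => hp ?_⟩, ?_⟩
        · exact mem_iUnion.2 ⟨γ⁻¹, x, hxS, by
            show γ⁻¹ • E x = p
            rw [← hγ, inv_smul_smul]⟩
        · show γ⁻¹ • E x = p
          rw [← hγ, inv_smul_smul]
      · intro hp hp'
        obtain ⟨γ, y, ⟨hyT, hyS⟩, hy⟩ := mem_iUnion.1 hp
        obtain ⟨γ', x, hxS, hx⟩ := mem_iUnion.1 hp'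
        refine hyS ((hinv (γ⁻¹ * γ') x y ⟨hST hxS, hyT, ?_⟩).1 hxS)
        have hx1 : γ' • E x = p := hx
        have hy1 : γ • E y = p := hy
        rw [mul_smul, hx1, ← hy1, inv_smul_smul]
    have hclopen : IsClopen (⋃ γ : G, (fun x => γ • E x) '' S) := by
      refine ⟨⟨?_⟩, hA⟩
      rw [hcompl]
      exact hB
    rcases isClopen_iff.1 hclopen with h0 | h1
    · left
      by_contra hne
      obtain ⟨x, hx⟩ := nonempty_iff_ne_empty.2 hne
      have : (fun x => (1 : G) • E x) x ∈ ⋃ γ : G, (fun x => γ • E x) '' S :=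
        mem_iUnion.2 ⟨1, x, hx, rfl⟩
      rw [h0] at this
      exact this
    · right
      refine Subset.antisymm hST fun x hx => ?_
      by_contra hxS
      have : (fun x => (1 : G) • E x) x ∈ ⋃ γ : G, (fun x => γ • E x) '' (T \ S) :=
        mem_iUnion.2 ⟨1, x, ⟨hx, hxS⟩, rfl⟩
      rw [← hcompl, h1] at this
      exact this (mem_univ _)

/-- Invariance of the pull back of an invariant metric. -/
theorem inv_pm (hΓ : ∀ γ : G, MDifferentiable 𝓘(ℂ, Fin n → ℂ) 𝓘(ℂ, Fin n → ℂ)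
    (fun x : M => γ • x)) {q : M → Matrix (Fin n) (Fin n) ℂ}
    (hq : ∀ γ : G, InvMetric n q (fun y : M => γ • y)) {T : Set (Cn n)} {E : Cn n → M}
    (hE : Par n E T) (U : Set (Cn n)) (τ : Cn n → Cn n) (hτ : Arr (RelT (G := G) T E) U τ)
    (x : Cn n) (hx : x ∈ U) (u w : Cn n) :
    hermi (pm n q E (τ x)) (fderiv ℂ τ x u) (fderiv ℂ τ x w) = hermi (pm n q E x) u w := by
  obtain ⟨γ, hγ⟩ := arr_rel hΓ hE hτ
  obtain ⟨-, -, h1, -, h2⟩ := hγ x hx
  rw [hermi_pm, hermi_pm, h2, h2, ← h1]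
  exact hq γ (E x) _ _

/-- The étale relation with the pull back of an invariant Kähler metric. -/
theorem ketN [T2Space M] [ConnectedSpace M] (hact : OrbAction n G M)
    (hprop : ∀ K : Set M, IsCompact K → {γ : G | ∃ y ∈ K, γ • y ∈ K}.Finite)
    {h : M → Matrix (Fin n) (Fin n) ℂ} (hK : KahlerMetric n M h)
    (hinv : ∀ γ : G, InvMetric n h (fun y : M => γ • y)) {T : Set (Cn n)}
    {E : Cn n → M} (hE : Par n E T) (hne : T.Nonempty)
    (hcov : ∃ C ⊆ T, IsCompact C ∧ ∀ p : M, ∃ γ : G, ∃ y ∈ C, γ • p = E y) :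
    KEt T (RelT (G := G) T E) (pm n h E) := by
  obtain ⟨hpos, hform⟩ := hK
  obtain ⟨hs, hc⟩ := hform T E hE.1
  obtain ⟨hsm, hcl⟩ := Pool.Agent.Helper19.Lin.closed_of_form hE.1.1 (H := pm n h E)
    (fun x hx => (pm_posDef hpos (hE.2 x hx)).1) (κ := metricForm n h E) (by
      intro x hx u w
      unfold metricForm
      rw [← hermi_pm]
      rfl) hs hc
  exact ⟨etN hact hprop hE hne hcov, fun x hx => pm_posDef hpos (hE.2 x hx), hsm, hcl,
    inv_pm hact.holo hinv hE⟩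

/-- Transformation of the potential. -/
theorem pot_rel (hact : OrbAction n G M) {v : M → ℝ} (hv : ∀ x, 0 < v x)
    (hinv : ∀ (γ : G) (x : M), v (γ • x) * ‖jac n (fun y : M => γ • y) x‖ ^ 2 = v x)
    {T : Set (Cn n)} {E : Cn n → M} (hE : Par n E T) (U : Set (Cn n)) (τ : Cn n → Cn n)
    (hτ : Arr (RelT (G := G) T E) U τ) (x : Cn n) (hx : x ∈ U) :
    lpot n v E x = lpot n v E (τ x) + Real.log (‖(fderiv ℂ τ x).det‖ ^ 2) := by
  obtain ⟨γ, hγ⟩ := arr_rel hact.holo hE hτ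
  obtain ⟨hxT, hyT, h1, h2, -⟩ := hγ x hx
  have hdet : (fderiv ℂ τ x).det ≠ 0 := by
    intro h0
    rw [h0, mul_zero] at h2
    exact mul_ne_zero (jac_smul_ne_zero hact.holo γ _) (hE.2 x hxT) h2.symm
  have hne2 : ‖(fderiv ℂ τ x).det‖ ^ 2 ≠ 0 := pow_ne_zero _ (norm_ne_zero_iff.2 hdet)
  have hne1 : v (E (τ x)) * ‖jac n E (τ x)‖ ^ 2 ≠ 0 :=
    mul_ne_zero (hv _).ne' (pow_ne_zero _ (norm_ne_zero_iff.2 (hE.2 _ hyT)))
  simp only [lpot]
  rw [← Real.log_mul hne1 hne2]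
  congr 1
  rw [← hinv γ (E x), h1, mul_assoc, mul_assoc, ← mul_pow, ← mul_pow, ← norm_mul, ← norm_mul, h2]

end general

/-- Parametrizations on balls are put together on disjoint balls. -/
theorem glue_par {n N : ℕ} {M : Type v} [TopologicalSpace M] [ChartedSpace (Fin n → ℂ) M]
    (a c : Fin N → Cn n) (R : Fin N → ℝ) (ψ : Fin N → Cn n → M)
    (hψ : ∀ i, Par n (ψ i) (ball (a i) (R i)))
    (hd : ∀ i j, i ≠ j → Disjoint (ball (c i) (R i)) (ball (c j) (R j))) (d : Cn n → M) :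
    ∃ E : Cn n → M, (∀ i, ∀ y ∈ ball (c i) (R i), E y = ψ i (a i + (y - c i))) ∧
      Par n E (⋃ i, ball (c i) (R i)) := by
  classical
  let E : Cn n → M := fun y => if h : ∃ i, y ∈ ball (c i) (R i) then
    ψ h.choose (a h.choose + (y - c h.choose)) else d y
  have hE : ∀ i, ∀ y ∈ ball (c i) (R i), E y = ψ i (a i + (y - c i)) := by
    intro i y hy
    have h : ∃ i, y ∈ ball (c i) (R i) := ⟨i, hy⟩
    have h1 : h.choose = i := by
      by_contra hne
      exact Set.disjoint_left.1 (hd _ _ hne) h.choose_spec hy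
    change (if h : ∃ i, y ∈ ball (c i) (R i) then
      ψ h.choose (a h.choose + (y - c h.choose)) else d y) = _
    rw [dif_pos h, h1]
  refine ⟨E, hE, par_of_local (isOpen_iUnion fun i => isOpen_ball) ?_⟩
  intro z hz
  obtain ⟨i, hi⟩ := mem_iUnion.1 hz
  have hφ : Differentiable ℂ fun y : Cn n => a i + (y - c i) := by fun_prop
  have hfd : ∀ y : Cn n, fderiv ℂ (fun y : Cn n => a i + (y - c i)) y =
      ContinuousLinearMap.id ℂ (Cn n) := by
    intro y
    exact (((hasFDerivAt_id y).sub_const (c i)).const_add (a i)).fderiv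
  refine ⟨ball (c i) (R i), ψ i ∘ fun y => a i + (y - c i), hi, (par_comp (hψ i) isOpen_ball
    hφ.differentiableOn ?_ ?_).1, fun y hy => hE i y hy⟩
  · intro y hy
    rw [mem_ball, dist_eq_norm] at hy ⊢
    rwa [add_sub_cancel_left]
  · intro y _
    rw [hfd]
    have : (ContinuousLinearMap.id ℂ (Cn n)).det = 1 := LinearMap.det_id
    rw [this]
    exact one_ne_zero

theorem mtk : S_MTK.{u, v} := by
  intro b k G M _ _ _ _ _ _ _ h g v hk hD hg hginv V ψ hψ x₀ hx₀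
  classical
  obtain ⟨r, hr, hrV⟩ := Metric.isOpen_iff.1 hψ.1.1 x₀ hx₀
  obtain ⟨K, hK, hKcov⟩ := hD.act.cocompact
  -- charts
  have hch : ∀ p : M, ∃ ρ > 0, ball ((chartAt (Fin (b + k) → ℂ) p) p) (2 * ρ) ⊆
      (chartAt (Fin (b + k) → ℂ) p).target := by
    intro p
    obtain ⟨ε, hε, hsub⟩ := Metric.isOpen_iff.1 (chartAt (Fin (b + k) → ℂ) p).open_target
      ((chartAt (Fin (b + k) → ℂ) p) p) (mem_chart_target _ p)
    exact ⟨ε / 2, by positivity, by rwa [mul_div_cancel₀ ε two_ne_zero]⟩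
  choose ρ hρ hρs using hch
  let χ : M → OpenPartialHomeomorph M (Fin (b + k) → ℂ) := fun p => chartAt (Fin (b + k) → ℂ) p
  have hparχ : ∀ p : M, Par (b + k) (χ p).symm (χ p).target := by
    intro p
    refine ⟨⟨(χ p).open_target, mdiff_chart_symm p⟩, fun z hz => ?_⟩
    exact jac_chart_symm_ne_zero _ hz
  have hW : ∀ p : M, (χ p).symm '' ball (χ p p) (ρ p) ∈ 𝓝 p := by
    intro p
    have h1 : IsOpen ((χ p).symm '' ball (χ p p) (ρ p)) :=
      (χ p).symm.isOpen_image_of_subset_source isOpen_ball (fun y hy => by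
        have := hρs p (ball_subset_ball (by linarith [hρ p]) hy)
        exact this)
    refine h1.mem_nhds ⟨χ p p, mem_ball_self (hρ p), ?_⟩
    exact (χ p).left_inv (mem_chart_source _ p)
  obtain ⟨t, htK, ht⟩ := hK.elim_nhds_subcover (fun p => (χ p).symm '' ball (χ p p) (ρ p))
    (fun p _ => hW p)
  -- enumeration
  let L : ℕ := t.card
  let eq : Fin L ≃ t := t.equivFin.symm
  let a : Fin (L + 1) → Cn (b + k) := Fin.cons x₀ fun i => χ (eq i : M) (eq i : M)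
  let R : Fin (L + 1) → ℝ := Fin.cons r fun i => 2 * ρ (eq i : M)
  let Ψ : Fin (L + 1) → Cn (b + k) → M := Fin.cons ψ fun i => (χ (eq i : M)).symm
  have hRpos : ∀ i, 0 < R i := by
    intro i
    refine Fin.cases hr (fun i => ?_) i
    exact mul_pos two_pos (hρ _)
  obtain ⟨B, hB⟩ : ∃ B : ℝ, ∀ i, R i ≤ B := by
    refine ⟨∑ i, R i, fun i => ?_⟩
    exact Finset.single_le_sum (fun j _ => (hRpos j).le) (Finset.mem_univ i)
  have hB0 : 0 < B := (hRpos 0).trans_le (hB 0)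
  have hn : 0 < b + k := by omega
  let m₀ : Fin (b + k) := ⟨0, hn⟩
  let c : Fin (L + 1) → Cn (b + k) := fun i => x₀ + Pi.single m₀ ((2 * B * (i.1 : ℝ) : ℝ) : ℂ)
  have hc0 : c 0 = x₀ := by
    simp [c]
  have hd : ∀ i j, i ≠ j → Disjoint (ball (c i) (R i)) (ball (c j) (R j)) := by
    intro i j hij
    apply ball_disjoint_ball
    have h1 : dist (c i) (c j) = ‖c i - c j‖ := dist_eq_norm _ _
    have h2 : ‖(c i - c j) m₀‖ ≤ ‖c i - c j‖ := norm_le_pi_norm _ m₀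
    have h3 : (c i - c j) m₀ = ((2 * B * ((i.1 : ℝ) - (j.1 : ℝ)) : ℝ) : ℂ) := by
      simp only [c, Pi.sub_apply, Pi.add_apply, Pi.single_eq_same]
      push_cast
      ring
    rw [h3, Complex.norm_real, Real.norm_eq_abs, abs_mul, abs_of_pos (by linarith : 0 < 2 * B)]
      at h2
    have h4 : 1 ≤ |(i.1 : ℝ) - (j.1 : ℝ)| := by
      have h5 : (i.1 : ℤ) - (j.1 : ℤ) ≠ 0 := by
        intro h6
        apply hij
        apply Fin.ext
        omega
      have h6 := Int.one_le_abs h5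
      have h7 : ((1 : ℤ) : ℝ) ≤ ((|(i.1 : ℤ) - (j.1 : ℤ)| : ℤ) : ℝ) := Int.cast_le.2 h6
      push_cast at h7
      exact h7
    rw [h1]
    have h5 := hB i
    have h6 := hB j
    nlinarith
  have hΨ : ∀ i, Par (b + k) (Ψ i) (ball (a i) (R i)) := by
    intro i
    refine Fin.cases ?_ (fun i => ?_) i
    · exact Pool.Agent.Helper4.SP.par_mono hψ isOpen_ball hrV
    · exact Pool.Agent.Helper4.SP.par_mono (hparχ _) isOpen_ball (hρs _)
  obtain ⟨E, hE, hpar⟩ := glue_par a c R Ψ hΨ hd ψ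
  have hball0 : ball x₀ r ⊆ ⋃ i, ball (c i) (R i) := by
    intro y hy
    refine mem_iUnion.2 ⟨0, ?_⟩
    rw [hc0]
    exact hy
  have hcov : ∃ C ⊆ ⋃ i, ball (c i) (R i), IsCompact C ∧
      ∀ p : M, ∃ γ : G, ∃ y ∈ C, γ • p = E y := by
    refine ⟨⋃ i : Fin L, closedBall (c i.succ) (ρ (eq i : M)), ?_,
      isCompact_iUnion fun i => isCompact_closedBall _ _, ?_⟩
    · refine iUnion_subset fun i => ?_
      intro y hy
      refine mem_iUnion.2 ⟨i.succ, closedBall_subset_ball ?_ hy⟩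
      change ρ (eq i : M) < 2 * ρ (eq i : M)
      linarith [hρ (eq i : M)]
    · intro p
      obtain ⟨γ, hγ⟩ := hKcov p
      obtain ⟨q, hq, hq2⟩ := mem_iUnion₂.1 (ht hγ)
      obtain ⟨y, hy, hyp⟩ := hq2
      obtain ⟨i, hi⟩ := eq.surjective ⟨q, hq⟩
      have hqi : (eq i : M) = q := by rw [hi]
      have hy1 : ‖y - χ q q‖ < ρ q := by
        rw [← dist_eq_norm]
        exact hy
      refine ⟨γ, c i.succ + (y - χ q q), mem_iUnion.2 ⟨i, ?_⟩, ?_⟩
      · rw [mem_closedBall, dist_eq_norm, add_sub_cancel_left, hqi]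
        exact hy1.le
      · have hin : c i.succ + (y - χ q q) ∈ ball (c i.succ) (R i.succ) := by
          rw [mem_ball, dist_eq_norm, add_sub_cancel_left]
          change _ < 2 * ρ (eq i : M)
          rw [hqi]
          linarith [hρ q]
        rw [hE i.succ _ hin]
        change γ • p = (χ (eq i : M)).symm (χ (eq i : M) (eq i : M) +
          (c i.succ + (y - χ q q) - c i.succ))
        rw [hqi, add_sub_cancel_left, add_sub_cancel]
        exact hyp.symm
  have hne : (⋃ i, ball (c i) (R i)).Nonempty := ⟨x₀, hball0 (mem_ball_self hr)⟩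
  refine ⟨r, _, E, hr, hrV, hball0, ?_, hpar, ?_⟩
  · intro y hy
    have h1 : y ∈ ball (c 0) (R 0) := by
      rw [hc0]
      exact hy
    rw [hE 0 y h1, hc0]
    change ψ (x₀ + (y - x₀)) = ψ y
    rw [add_sub_cancel]
  · exact
      { posk := hk
        ket := ketN hD.act hD.proper hD.kah hD.inv hpar hne hcov
        smP := hD.met.smooth _ _ hpar
        pot := pot_rel hD.act hD.met.pos hD.vinv hpar
        rank := hD.rank _ _ hpar
        posg := fun x hx => pm_posDef hg.1 (hpar.2 x hx)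
        smg := fun i j => pm_smooth (hg.2 _ _ hpar.1) i j
        ginv := inv_pm hD.act.holo hginv hpar }

end Pool.Agent.Helper9.RK
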